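import Mathlib

namespace Pool.Agent.Results.MP_95765a_co.AllDigraphs

/-- `f : V → 2^X` is a set-indexer of the digraph with arc relation `A`: both `f` and the induced
arc function `g_f (u, v) = f u \ f v` on arcs are injective. -/
def IsSetIndexer {V X : Type*} [DecidableEq X] (A : V → V → Prop) (f : V → Finset X) : Prop :=
  Function.Injective f ∧
    ∀ u v u' v', A u v → A u' v' → f u \ f v = f u' \ f v' → u = u' ∧ v = v'

/-- The set-valuation `f` is arc-binding: `|f u \ f v| < |f v|` for every arc `(u, v)`. -/
def IsArcBinding {V X : Type*} [DecidableEq X] (A : V → V → Prop) (f : V → Finset X) : Prop :=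
  ∀ u v, A u v → (f u \ f v).card < (f v).card

/-- The set-valuation `f` attains the extremal arc bound on every arc:
`|f u \ f v| = min (|f u|, |f v| - 1)` (an equality of integers). -/
def AttainsBound {V X : Type*} [DecidableEq X] (A : V → V → Prop) (f : V → Finset X) : Prop :=
  ∀ u v, A u v → ((f u \ f v).card : ℤ) = min ((f u).card : ℤ) ((f v).card - 1)

/-- the universal set-valuation: a vertex `v` gets the set of all unordered pairs containing `v` -/
def val (V : Type*) [Fintype V] [DecidableEq V] (v : V) : Finset (Option (Sym2 V)) :=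
  (Finset.univ : Finset V).image fun w => some s(v, w)

section
variable {V : Type*} [Fintype V] [DecidableEq V]

theorem mem_val {v a b : V} : some s(a, b) ∈ val V v ↔ a = v ∨ b = v := by
  unfold val
  simp only [Finset.mem_image, Finset.mem_univ, true_and, Option.some.injEq]
  constructor
  · rintro ⟨w, hw⟩
    rw [Sym2.eq_iff] at hw
    rcases hw with ⟨h1, h2⟩ | ⟨h1, h2⟩
    · exact Or.inl h1.symm
    · exact Or.inr h1.symm
  · rintro (h | h)
    · exact ⟨b, by rw [h]⟩
    · exact ⟨a, by rw [h, Sym2.eq_swap]⟩

theorem card_val (v : V) : (val V v).card = Fintype.card V := by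
  unfold val
  rw [Finset.card_image_of_injective, Finset.card_univ]
  intro w w' h
  simp only [Option.some.injEq, Sym2.eq_iff, true_and] at h
  rcases h with h | ⟨h1, h2⟩
  · exact h
  · rw [h2, h1]

theorem val_inter {u v : V} (h : u ≠ v) : val V u ∩ val V v = {some s(u, v)} := by
  ext x
  constructor
  · intro hx
    rw [Finset.mem_inter] at hx
    obtain ⟨w, -, rfl⟩ := Finset.mem_image.mp hx.1
    have h2 := mem_val.mp hx.2
    rcases h2 with h2 | h2
    · exact absurd h2 h
    · rw [h2]; simp
  · intro hx
    rw [Finset.mem_singleton] at hx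
    subst hx
    rw [Finset.mem_inter]
    exact ⟨mem_val.mpr (Or.inl rfl), mem_val.mpr (Or.inr rfl)⟩

theorem card_sdiff_val {u v : V} (h : u ≠ v) :
    (val V u \ val V v).card + 1 = Fintype.card V := by
  have h1 := Finset.card_sdiff_add_card_inter (val V u) (val V v)
  rw [val_inter h, card_val, Finset.card_singleton] at h1
  exact h1

end

/-- **Every** finite loopless digraph (arc relation `A` on a finite vertex set `V`, opposite arcs
allowed) has an arc-binding set-indexer over some finite nonempty ground set which attains
equality in the extremal bound on every arc. -/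
theorem result {V : Type*} [Finite V] (A : V → V → Prop) (hA : ∀ v, ¬ A v v) :
    ∃ (m : ℕ) (f : V → Finset (Fin (m + 1))),
      IsSetIndexer A f ∧ IsArcBinding A f ∧ AttainsBound A f := by
  classical
  have := Fintype.ofFinite V
  -- a ground set of the form `Fin (m + 1)`
  let e : Option (Sym2 V) ≃ Fin (Fintype.card (Sym2 V) + 1) :=
    (Fintype.equivFin (Option (Sym2 V))).trans (finCongr (by simp))
  refine ⟨Fintype.card (Sym2 V), fun v => (val V v).map e.toEmbedding, ?_, ?_, ?_⟩
  · refine ⟨?_, ?_⟩
    · intro u v h
      have h' : val V u = val V v := Finset.map_injective _ h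
      have h1 : some s(u, u) ∈ val V v := h' ▸ mem_val.mpr (Or.inl rfl)
      rcases mem_val.mp h1 with h2 | h2 <;> exact h2
    · intro u v u' v' huv huv' h
      have huv1 : u ≠ v := fun h => hA _ (h ▸ huv)
      have huv1' : u' ≠ v' := fun h => hA _ (h ▸ huv')
      simp only [← Finset.map_sdiff] at h
      have h' : val V u \ val V v = val V u' \ val V v' := Finset.map_injective _ h
      have h1 : some s(u, u) ∈ val V u' \ val V v' := by
        rw [← h', Finset.mem_sdiff]
        refine ⟨mem_val.mpr (Or.inl rfl), fun h => ?_⟩
        rcases mem_val.mp h with h2 | h2 <;> exact huv1 h2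
      have h2 : u = u' := by
        rcases mem_val.mp (Finset.mem_sdiff.mp h1).1 with h3 | h3 <;> exact h3
      refine ⟨h2, ?_⟩
      subst h2
      by_contra hne
      have h3 : some s(u, v) ∈ val V u \ val V v' := by
        rw [Finset.mem_sdiff]
        refine ⟨mem_val.mpr (Or.inl rfl), fun h => ?_⟩
        rcases mem_val.mp h with h4 | h4
        · exact huv1' h4
        · exact hne h4
      rw [← h', Finset.mem_sdiff] at h3
      exact h3.2 (mem_val.mpr (Or.inr rfl))
  · intro u v huv
    have huv1 : u ≠ v := fun h => hA _ (h ▸ huv)
    simp only [← Finset.map_sdiff, Finset.card_map]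
    have := card_sdiff_val huv1
    rw [card_val]
    omega
  · intro u v huv
    have huv1 : u ≠ v := fun h => hA _ (h ▸ huv)
    simp only [← Finset.map_sdiff, Finset.card_map]
    have := card_sdiff_val huv1
    rw [card_val, card_val]
    omega

end Pool.Agent.Results.MP_95765a_co.AllDigraphs
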